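import Mathlib

open scoped Manifold ContDiff Topology MatrixGroups

namespace Pool.Agent.Results.MP_20070e_gt.NoLocalExtension

/-- Euclidean space of dimension `n`. -/
abbrev E (n : ℕ) := EuclideanSpace ℝ (Fin n)

/-- The unit sphere `S^(n-1)` of `ℝ^n`. -/
abbrev S (n : ℕ) := Metric.sphere (0 : EuclideanSpace ℝ (Fin n)) 1

/-- The linear map of `ℝ^n` given by `g ∈ SL(n,ℝ)`. -/
noncomputable def lin {n : ℕ} (g : SL(n, ℝ)) : E n →L[ℝ] E n :=
  Matrix.toEuclideanCLM (n := Fin n) (𝕜 := ℝ) (g : Matrix (Fin n) (Fin n) ℝ)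

lemma lin_apply {n : ℕ} (A : SL(n, ℝ)) (x : E n) (i : Fin n) :
    lin A x i = ∑ j, (A : Matrix (Fin n) (Fin n) ℝ) i j * x j := by
  simp [lin, Matrix.ofLp_toEuclideanCLM, Matrix.mulVec, dotProduct]

lemma lin_one {n : ℕ} : lin (1 : SL(n, ℝ)) = 1 := by
  simp [lin]

lemma lin_mul {n : ℕ} (A B : SL(n, ℝ)) : lin (A * B) = lin A * lin B := by
  simp [lin]

lemma lin_mul_apply {n : ℕ} (A B : SL(n, ℝ)) (x : E n) : lin (A * B) x = lin A (lin B x) := by
  rw [lin_mul]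
  rfl

lemma lin_ne_zero {n : ℕ} (A : SL(n, ℝ)) {x : E n} (hx : x ≠ 0) : lin A x ≠ 0 := by
  intro h
  have h1 : lin (A⁻¹ * A) x = 0 := by rw [lin_mul_apply, h, map_zero]
  rw [inv_mul_cancel, lin_one] at h1
  exact hx h1

lemma norm_lin_ne {n : ℕ} (A : SL(n, ℝ)) {x : E n} (hx : x ≠ 0) : ‖lin A x‖ ≠ 0 :=
  norm_ne_zero_iff.2 (lin_ne_zero A hx)

lemma sphere_ne_zero {n : ℕ} (x : S n) : (x : E n) ≠ 0 := by
  intro h
  have := x.2
  rw [mem_sphere_zero_iff_norm, h, norm_zero] at this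
  exact zero_ne_one this

/-- The product `g v` of a matrix and a vector. -/
def mv {n : ℕ} (g : SL(n, ℝ)) (x : E n) : E n :=
  WithLp.toLp 2 ((g : Matrix (Fin n) (Fin n) ℝ).mulVec x.ofLp)

lemma mv_eq {n : ℕ} (g : SL(n, ℝ)) (x : E n) : mv g x = lin g x := rfl

/-- The standard action of `SL(n,ℝ)` on the sphere: `g · v = g v / |g v|`. -/
noncomputable def sphereAct {n : ℕ} (g : SL(n, ℝ)) (x : S n) : S n :=
  ⟨‖mv g x‖⁻¹ • mv g x, by
    rw [mv_eq, mem_sphere_zero_iff_norm, norm_smul, norm_inv, norm_norm]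
    exact inv_mul_cancel₀ (norm_lin_ne g (sphere_ne_zero x))⟩

/-- The inclusion of `SL(n,ℤ)` into `SL(n,ℝ)`. -/
def toReal {n : ℕ} : SL(n, ℤ) →* SL(n, ℝ) := Matrix.SpecialLinearGroup.map (Int.castRingHom ℝ)

/-- `Γ` acts on `M`, `ι : Γ → G` is a homomorphism and `φ : N → M` a map. There is a local action
of `G` (here only assumed continuous) near the image of `φ` which extends the action of `Γ`. -/
def HasLocalExtension {Γ G N M : Type} [Group Γ] [Group G] [TopologicalSpace G]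
    [TopologicalSpace M] [MulAction Γ M] (ι : Γ →* G) (φ : N → M) : Prop :=
  ∃ (U : Set M) (W : Set (G × M)) (θ : G × M → M),
    IsOpen U ∧ Set.range φ ⊆ U ∧ IsOpen W ∧ (∀ g x, (g, x) ∈ W → x ∈ U) ∧
    (∀ g x, (g, φ x) ∈ W) ∧ ContinuousOn θ W ∧
    (∀ x, (1, x) ∈ W → θ (1, x) = x) ∧
    (∀ g h x, (h, x) ∈ W → (g, θ (h, x)) ∈ W → (g * h, x) ∈ W →
      θ (g, θ (h, x)) = θ (g * h, x)) ∧
    (∀ (γ : Γ) (x : M), (ι γ, x) ∈ W → θ (ι γ, x) = γ • x)

/-- The group `SL(n,ℤ)`. -/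
def SLZ (n : ℕ) : Type := SL(n, ℤ)

/-- The group structure of `SL(n,ℤ)`. -/
@[reducible] def groupSLZ (n : ℕ) : Group (SLZ n) := (inferInstance : Group SL(n, ℤ))

attribute [instance] groupSLZ

/-- The inclusion of a subgroup `Γ` of `SL(n,ℤ)` into `SL(n,ℝ)`. -/
def inc {n : ℕ} (Γ : Subgroup (SLZ n)) : Γ →* SL(n, ℝ) := toReal.comp Γ.subtype

/-- The principal congruence subgroup of level two. -/
def Gamma2 (n : ℕ) : Subgroup SL(n, ℤ) :=
  (Matrix.SpecialLinearGroup.map (n := Fin n) (Int.castRingHom (ZMod 2))).ker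

instance (n : ℕ) : (Gamma2 n).FiniteIndex := by
  unfold Gamma2
  infer_instance

lemma two_dvd_iff (z : ℤ) : (2 : ℤ) ∣ z ↔ ((z : ℤ) : ZMod 2) = 0 :=
  (ZMod.intCast_zmod_eq_zero_iff_dvd z 2).symm

lemma mem_Gamma2 {n : ℕ} {A : SL(n, ℤ)} : A ∈ Gamma2 n ↔
    ∀ i j, (2 : ℤ) ∣ (A : Matrix (Fin n) (Fin n) ℤ) i j - (1 : Matrix (Fin n) (Fin n) ℤ) i j := by
  unfold Gamma2
  rw [MonoidHom.mem_ker, Matrix.SpecialLinearGroup.ext_iff]
  refine forall_congr' fun i => forall_congr' fun j => ?_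
  rw [two_dvd_iff]
  have h1 : ((Matrix.SpecialLinearGroup.map (n := Fin n) (Int.castRingHom (ZMod 2)) A :
      SL(n, ZMod 2)) : Matrix (Fin n) (Fin n) (ZMod 2)) i j =
      (((A : Matrix (Fin n) (Fin n) ℤ) i j : ℤ) : ZMod 2) := rfl
  have h2 : ((1 : SL(n, ZMod 2)) : Matrix (Fin n) (Fin n) (ZMod 2)) i j =
      (((1 : Matrix (Fin n) (Fin n) ℤ) i j : ℤ) : ZMod 2) := by
    rw [Matrix.SpecialLinearGroup.coe_one]
    by_cases hij : i = j <;> simp [Matrix.one_apply, hij]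
  rw [h1, h2]
  push_cast
  rw [sub_eq_zero]

/-- The sign character of level two attached to the upper right `2 × 2` corner entry:
`1` if `4` divides `A 0 1`, and `-1` otherwise. -/
def sgn {m : ℕ} (A : SL(m + 2, ℤ)) : ℤ :=
  if (4 : ℤ) ∣ (A : Matrix (Fin (m + 2)) (Fin (m + 2)) ℤ) 0 1 then 1 else -1

lemma sgn_mul_self {m : ℕ} (A : SL(m + 2, ℤ)) : sgn A * sgn A = 1 := by
  unfold sgn
  split_ifs <;> norm_num

lemma sgn_mul {m : ℕ} {A B : SL(m + 2, ℤ)} (hA : A ∈ Gamma2 (m + 2)) (hB : B ∈ Gamma2 (m + 2)) :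
    sgn (A * B) = sgn A * sgn B := by
  rw [mem_Gamma2] at hA hB
  have key : (4 : ℤ) ∣ ((A * B : SL(m + 2, ℤ)) : Matrix (Fin (m + 2)) (Fin (m + 2)) ℤ) 0 1 -
      ((A : Matrix (Fin (m + 2)) (Fin (m + 2)) ℤ) 0 1 + (B : Matrix (Fin (m + 2)) (Fin (m + 2)) ℤ) 0 1) := by
    rw [Matrix.SpecialLinearGroup.coe_mul]
    set A' := (A : Matrix (Fin (m + 2)) (Fin (m + 2)) ℤ) with hA'
    set B' := (B : Matrix (Fin (m + 2)) (Fin (m + 2)) ℤ) with hB'
    have h1 : ((A' - 1) * (B' - 1)) 0 1 = (A' * B') 0 1 - (A' 0 1 + B' 0 1) := by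
      have : (A' - 1) * (B' - 1) = A' * B' - A' - B' + 1 := by
        rw [sub_mul, mul_sub, mul_one, one_mul]
        abel
      rw [this]
      have h01 : (0 : Fin (m + 2)) ≠ 1 := by simp
      simp [h01]
      ring
    rw [← h1, Matrix.mul_apply]
    apply Finset.dvd_sum
    intro j _
    have h2 := mul_dvd_mul (hA 0 j) (hB j 1)
    have h3 : (2 : ℤ) * 2 = 4 := by norm_num
    rw [h3] at h2
    exact h2
  have h01 : (0 : Fin (m + 2)) ≠ 1 := by simp
  have hA2 : (2 : ℤ) ∣ (A : Matrix (Fin (m + 2)) (Fin (m + 2)) ℤ) 0 1 := by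
    have := hA 0 1
    simpa [Matrix.one_apply, h01] using this
  have hB2 : (2 : ℤ) ∣ (B : Matrix (Fin (m + 2)) (Fin (m + 2)) ℤ) 0 1 := by
    have := hB 0 1
    simpa [Matrix.one_apply, h01] using this
  unfold sgn
  split_ifs <;> (try norm_num) <;> omega


/-- The punctured euclidean space `ℝ^n \\ {0}`. -/
def Pu (n : ℕ) : TopologicalSpace.Opens (E n) := ⟨{0}ᶜ, isOpen_compl_singleton⟩

lemma mem_Pu {n : ℕ} {x : E n} : x ∈ Pu n ↔ x ≠ 0 := Iff.rfl

lemma Pu_ne {n : ℕ} (x : Pu n) : (x : E n) ≠ 0 := x.2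

/-- The map `x ↦ |x|^(±1) γ x / |γ x|`, where the sign is `sgn γ`. -/
noncomputable def tw {m : ℕ} (A : SL(m + 2, ℤ)) (x : E (m + 2)) : E (m + 2) :=
  (‖x‖ ^ (sgn A) * ‖lin (toReal A) x‖⁻¹) • lin (toReal A) x

lemma tw_ne_zero {m : ℕ} (A : SL(m + 2, ℤ)) {x : E (m + 2)} (hx : x ≠ 0) : tw A x ≠ 0 := by
  unfold tw
  apply smul_ne_zero
  · apply mul_ne_zero
    · exact zpow_ne_zero _ (norm_ne_zero_iff.2 hx)
    · exact inv_ne_zero (norm_lin_ne _ hx)
  · exact lin_ne_zero _ hx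

lemma norm_tw {m : ℕ} (A : SL(m + 2, ℤ)) {x : E (m + 2)} (hx : x ≠ 0) :
    ‖tw A x‖ = ‖x‖ ^ (sgn A) := by
  unfold tw
  rw [norm_smul, norm_mul, norm_zpow, norm_norm, norm_inv, norm_norm, mul_assoc,
    inv_mul_cancel₀ (norm_lin_ne _ hx), mul_one]

lemma tw_one {m : ℕ} {x : E (m + 2)} (hx : x ≠ 0) : tw (1 : SL(m + 2, ℤ)) x = x := by
  unfold tw
  have h1 : sgn (1 : SL(m + 2, ℤ)) = 1 := by
    have h01 : (0 : Fin (m + 2)) ≠ 1 := by simp
    simp [sgn, h01]
  rw [h1, map_one, lin_one, zpow_one]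
  change (‖x‖ * ‖x‖⁻¹) • x = x
  rw [mul_inv_cancel₀ (norm_ne_zero_iff.2 hx), one_smul]

lemma tw_mul {m : ℕ} {A B : SL(m + 2, ℤ)} (hA : A ∈ Gamma2 (m + 2)) (hB : B ∈ Gamma2 (m + 2))
    {x : E (m + 2)} (hx : x ≠ 0) : tw (A * B) x = tw A (tw B x) := by
  have hB0 : tw B x ≠ 0 := tw_ne_zero B hx
  conv_rhs => rw [tw]
  rw [norm_tw B hx]
  have h1 : lin (toReal A) (tw B x) =
      (‖x‖ ^ (sgn B) * ‖lin (toReal B) x‖⁻¹) • lin (toReal (A * B)) x := by
    rw [map_mul, lin_mul_apply]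
    unfold tw
    rw [map_smul]
  have hpos : 0 < ‖x‖ ^ (sgn B) * ‖lin (toReal B) x‖⁻¹ := by
    have := norm_pos_iff.2 hx
    have := norm_pos_iff.2 (lin_ne_zero (toReal B) hx)
    positivity
  rw [h1, norm_smul, Real.norm_of_nonneg hpos.le, smul_smul]
  unfold tw
  congr 1
  have hn1 : ‖lin (toReal B) x‖ ≠ 0 := norm_lin_ne _ hx
  have hn2 : ‖lin (toReal (A * B)) x‖ ≠ 0 := norm_lin_ne _ hx
  rw [← zpow_mul, mul_comm (sgn B), sgn_mul hA hB]
  field_simp

/-- The twisted action of the principal congruence subgroup of level two. -/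
noncomputable instance twAct (m : ℕ) : MulAction (Gamma2 (m + 2)) (Pu (m + 2)) where
  smul A x := ⟨tw (A : SL(m + 2, ℤ)) x, tw_ne_zero _ (Pu_ne x)⟩
  one_smul x := Subtype.ext (tw_one (Pu_ne x))
  mul_smul A B x := Subtype.ext (tw_mul A.2 B.2 (Pu_ne x))

lemma smul_val {m : ℕ} (A : Gamma2 (m + 2)) (x : Pu (m + 2)) :
    ((A • x : Pu (m + 2)) : E (m + 2)) = tw (A : SL(m + 2, ℤ)) x := rfl

/-- The inclusion of the unit sphere. -/
def incl (n : ℕ) (x : S n) : Pu n := ⟨x, sphere_ne_zero x⟩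

lemma incl_equivariant {m : ℕ} (A : Gamma2 (m + 2)) (x : S (m + 2)) :
    incl _ (sphereAct (toReal (A : SL(m + 2, ℤ))) x) = A • incl _ x := by
  apply Subtype.ext
  rw [smul_val]
  change ‖lin _ (x : E (m + 2))‖⁻¹ • lin _ (x : E (m + 2)) =
    (‖(x : E (m + 2))‖ ^ (sgn (A : SL(m + 2, ℤ))) * ‖lin _ (x : E (m + 2))‖⁻¹) • lin _ (x : E (m + 2))
  have hx : ‖(x : E (m + 2))‖ = 1 := mem_sphere_zero_iff_norm.1 x.2
  rw [hx, one_zpow, one_mul]

lemma contMDiff_to_opens {k n : ℕ} {M : Type*} [TopologicalSpace M] [ChartedSpace (E k) M]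
    {U : TopologicalSpace.Opens (E n)} {f : M → U} {x : M}
    (h : ContMDiffAt (𝓡 k) (𝓡 n) ∞ (fun y => (f y : E n)) x) : ContMDiffAt (𝓡 k) (𝓡 n) ∞ f x :=
  (ChartedSpace.liftPropWithinAt_subtypeVal_comp_iff f Set.univ x).1 h

lemma contDiffAt_tw {m : ℕ} (A : SL(m + 2, ℤ)) {x : E (m + 2)} (hx : x ≠ 0) :
    ContDiffAt ℝ ∞ (tw A) x := by
  have h1 : ContDiffAt ℝ ∞ (fun y : E (m + 2) => ‖y‖) x := contDiffAt_norm ℝ hx
  have h2 : ContDiffAt ℝ ∞ (fun y : E (m + 2) => lin (toReal A) y) x :=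
    (lin (toReal A)).contDiff.contDiffAt
  have h3 : ContDiffAt ℝ ∞ (fun y : E (m + 2) => ‖lin (toReal A) y‖) x :=
    ContDiffAt.norm ℝ h2 (lin_ne_zero _ hx)
  have h4 : ContDiffAt ℝ ∞ (fun y : E (m + 2) => ‖lin (toReal A) y‖⁻¹) x :=
    h3.inv (norm_lin_ne _ hx)
  have h5 : ContDiffAt ℝ ∞ (fun y : E (m + 2) => ‖y‖ ^ (sgn A)) x := by
    unfold sgn
    split_ifs
    · simpa using h1
    · have h6 : ContDiffAt ℝ ∞ (fun y : E (m + 2) => ‖y‖⁻¹) x := h1.inv (norm_ne_zero_iff.2 hx)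
      simpa using h6
  exact (h5.mul h4).smul h2

lemma contMDiff_smul {m : ℕ} (A : Gamma2 (m + 2)) :
    ContMDiff (𝓡 (m + 2)) (𝓡 (m + 2)) ∞ (fun y : Pu (m + 2) => A • y) := by
  intro x
  apply contMDiff_to_opens
  change ContMDiffAt (𝓡 (m + 2)) (𝓡 (m + 2)) ∞
    (fun y : Pu (m + 2) => tw (A : SL(m + 2, ℤ)) (y : E (m + 2))) x
  exact (contDiffAt_tw (A : SL(m + 2, ℤ)) (Pu_ne x)).contMDiffAt.comp x
    contMDiff_subtype_val.contMDiffAt

lemma contMDiff_coe {m : ℕ} :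
    ContMDiff (𝓡 (m + 1)) (𝓡 (m + 2)) ∞ (fun x : S (m + 2) => (x : E (m + 2))) := by
  have : Fact (Module.finrank ℝ (EuclideanSpace ℝ (Fin (m + 1 + 1))) = m + 1 + 1) :=
    Fact.mk (@finrank_euclideanSpace_fin ℝ _ (m + 1 + 1))
  exact contMDiff_coe_sphere (E := EuclideanSpace ℝ (Fin (m + 1 + 1)))

lemma contMDiff_incl {m : ℕ} : ContMDiff (𝓡 (m + 1)) (𝓡 (m + 2)) ∞ (incl (m + 2)) := by
  intro x
  apply contMDiff_to_opens
  exact contMDiff_coe x

lemma isEmbedding_incl {n : ℕ} : Topology.IsEmbedding (incl n) := by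
  have h : Topology.IsEmbedding ((Subtype.val : Pu n → E n) ∘ incl n) := Topology.IsEmbedding.subtypeVal
  exact (Topology.IsEmbedding.of_comp_iff Topology.IsEmbedding.subtypeVal).1 h

lemma injective_mfderiv_incl {m : ℕ} (x : S (m + 2)) :
    Function.Injective (mfderiv (𝓡 (m + 1)) (𝓡 (m + 2)) (incl (m + 2)) x) := by
  have : Fact (Module.finrank ℝ (EuclideanSpace ℝ (Fin (m + 1 + 1))) = m + 1 + 1) :=
    Fact.mk (@finrank_euclideanSpace_fin ℝ _ (m + 1 + 1))
  have h1 : Function.Injective (mfderiv (𝓡 (m + 1)) 𝓘(ℝ, EuclideanSpace ℝ (Fin (m + 1 + 1)))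
      ((↑) : Metric.sphere (0 : EuclideanSpace ℝ (Fin (m + 1 + 1))) 1 →
        EuclideanSpace ℝ (Fin (m + 1 + 1))) x) := by
    convert! injective_mvfderiv_subtypeVal_sphere (E := EuclideanSpace ℝ (Fin (m + 1 + 1))) x
  have h2 : MDifferentiableAt (𝓡 (m + 1)) (𝓡 (m + 2)) (incl (m + 2)) x :=
    (contMDiff_incl x).mdifferentiableAt (by simp)
  have h3 : MDifferentiableAt (𝓡 (m + 2)) (𝓡 (m + 2)) (Subtype.val : Pu (m + 2) → E (m + 2))
      (incl (m + 2) x) :=
    ((contMDiff_subtype_val (n := ∞)) (incl (m + 2) x)).mdifferentiableAt (by simp)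
  have h4 := mfderiv_comp x h3 h2
  have h5 : (Subtype.val : Pu (m + 2) → E (m + 2)) ∘ incl (m + 2) =
      ((↑) : Metric.sphere (0 : EuclideanSpace ℝ (Fin (m + 1 + 1))) 1 →
        EuclideanSpace ℝ (Fin (m + 1 + 1))) := rfl
  rw [h5] at h4
  intro v w hvw
  apply h1
  rw [h4]
  change (mfderiv (𝓡 (m + 2)) (𝓡 (m + 2)) (Subtype.val : Pu (m + 2) → E (m + 2)) (incl (m + 2) x))
    ((mfderiv (𝓡 (m + 1)) (𝓡 (m + 2)) (incl (m + 2)) x) v) =
    (mfderiv (𝓡 (m + 2)) (𝓡 (m + 2)) (Subtype.val : Pu (m + 2) → E (m + 2)) (incl (m + 2) x))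
    ((mfderiv (𝓡 (m + 1)) (𝓡 (m + 2)) (incl (m + 2)) x) w)
  rw [hvw]


/-! ### Elementary matrices -/

/-- Real elementary matrices. -/
def Tr {n : ℕ} (i j : Fin n) (h : i ≠ j) (c : ℝ) : SL(n, ℝ) :=
  ⟨Matrix.transvection i j c, Matrix.det_transvection_of_ne i j h c⟩

/-- Integer elementary matrices. -/
def Tz {n : ℕ} (i j : Fin n) (h : i ≠ j) (c : ℤ) : SL(n, ℤ) :=
  ⟨Matrix.transvection i j c, Matrix.det_transvection_of_ne i j h c⟩

lemma toReal_Tz {n : ℕ} (i j : Fin n) (h : i ≠ j) (c : ℤ) : toReal (Tz i j h c) = Tr i j h c := by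
  apply Subtype.ext
  ext a b
  change ((Matrix.transvection i j c a b : ℤ) : ℝ) = Matrix.transvection i j (c : ℝ) a b
  simp only [Matrix.transvection, Matrix.add_apply, Matrix.one_apply, Matrix.single_apply]
  push_cast
  split_ifs <;> simp

lemma Tr_continuous {n : ℕ} (i j : Fin n) (h : i ≠ j) : Continuous (Tr i j h) := by
  apply Continuous.subtype_mk
  refine continuous_matrix fun a b => ?_
  simp only [Matrix.transvection, Matrix.add_apply, Matrix.one_apply, Matrix.single_apply]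
  split_ifs <;> fun_prop

lemma Tr_zero {n : ℕ} (i j : Fin n) (h : i ≠ j) : Tr i j h 0 = 1 := by
  apply Subtype.ext
  change Matrix.transvection i j (0 : ℝ) = 1
  simp

lemma Tr_mul {n : ℕ} (i j : Fin n) (h : i ≠ j) (c d : ℝ) : Tr i j h c * Tr i j h d = Tr i j h (c + d) := by
  apply Subtype.ext
  change Matrix.transvection i j c * Matrix.transvection i j d = Matrix.transvection i j (c + d)
  exact Matrix.transvection_mul_transvection_same _ _ h c d

section

variable {m : ℕ}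

lemma h01 : (0 : Fin (m + 3)) ≠ 1 := by simp
lemma h02 : (0 : Fin (m + 3)) ≠ 2 := by
  intro h
  have h1 := congrArg Fin.val h
  have h2 : ((2 : Fin (m + 3)) : ℕ) = 2 := Fin.val_two
  rw [h2] at h1
  simp at h1
lemma h21 : (2 : Fin (m + 3)) ≠ 1 := by
  intro h
  have h1 := congrArg Fin.val h
  have h2 : ((2 : Fin (m + 3)) : ℕ) = 2 := Fin.val_two
  have h3 : ((1 : Fin (m + 3)) : ℕ) = 1 := Fin.val_one (m + 1)
  rw [h2, h3] at h1
  omega

/-- The two parameter family `(I + δ e_{01}) (I + ε e_{21})`. -/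
def K (ε δ : ℝ) : SL(m + 3, ℝ) := Tr 0 1 h01 δ * Tr 2 1 h21 ε

lemma K_conj (ε δ : ℝ) : (Tr 0 2 h02 2 : SL(m + 3, ℝ)) * K ε δ = K ε (δ + 2 * ε) * Tr 0 2 h02 2 := by
  have h10 : (1 : Fin (m + 3)) ≠ 0 := h01.symm
  have h20 : (2 : Fin (m + 3)) ≠ 0 := h02.symm
  have h12 : (1 : Fin (m + 3)) ≠ 2 := h21.symm
  apply Subtype.ext
  change Matrix.transvection 0 2 (2 : ℝ) * (Matrix.transvection 0 1 δ * Matrix.transvection 2 1 ε) =
    (Matrix.transvection 0 1 (δ + 2 * ε) * Matrix.transvection 2 1 ε) * Matrix.transvection 0 2 (2 : ℝ)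
  simp only [Matrix.transvection]
  simp only [mul_add, add_mul, mul_one, one_mul]
  simp only [Matrix.single_mul_single_same, Matrix.single_mul_single_of_ne _ _ _ _ h10,
    Matrix.single_mul_single_of_ne _ _ _ _ h20, Matrix.single_mul_single_of_ne _ _ _ _ h12,
    mul_zero, zero_mul, add_zero]
  rw [Matrix.single_add]
  abel


lemma K_zero (δ : ℝ) : (K 0 δ : SL(m + 3, ℝ)) = Tr 0 1 h01 δ := by
  unfold K
  rw [Tr_zero, mul_one]

lemma continuous_K : Continuous (fun p : ℝ × ℝ => (K p.1 p.2 : SL(m + 3, ℝ))) := by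
  unfold K
  exact ((Tr_continuous _ _ _).comp continuous_snd).mul ((Tr_continuous _ _ _).comp continuous_fst)

/-- `I + 2 e_{02}` in the congruence subgroup. -/
def uu : Gamma2 (m + 3) := ⟨Tz 0 2 h02 2, by
  rw [mem_Gamma2]
  intro i j
  change (2 : ℤ) ∣ Matrix.transvection 0 2 (2 : ℤ) i j - (1 : Matrix _ _ ℤ) i j
  simp only [Matrix.transvection, Matrix.add_apply, Matrix.single_apply]
  split_ifs <;> simp⟩

/-- `I + 2 e_{01}` in the congruence subgroup. -/
def vv : Gamma2 (m + 3) := ⟨Tz 0 1 h01 2, by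
  rw [mem_Gamma2]
  intro i j
  change (2 : ℤ) ∣ Matrix.transvection 0 1 (2 : ℤ) i j - (1 : Matrix _ _ ℤ) i j
  simp only [Matrix.transvection, Matrix.add_apply, Matrix.single_apply]
  split_ifs <;> simp⟩

lemma sgn_uu : sgn (uu : Gamma2 (m + 3)).1 = 1 := by
  have h : ((uu : Gamma2 (m + 3)).1 : Matrix (Fin (m + 3)) (Fin (m + 3)) ℤ) 0 1 = 0 := by
    change Matrix.transvection 0 2 (2 : ℤ) (0 : Fin (m + 3)) 1 = 0
    simp [Matrix.transvection, h21]
  unfold sgn
  erw [h]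
  simp

lemma sgn_vv : sgn (vv : Gamma2 (m + 3)).1 = -1 := by
  have h : ((vv : Gamma2 (m + 3)).1 : Matrix (Fin (m + 3)) (Fin (m + 3)) ℤ) 0 1 = 2 := by
    change Matrix.transvection 0 1 (2 : ℤ) (0 : Fin (m + 3)) 1 = 2
    simp [Matrix.transvection]
  unfold sgn
  erw [h]
  norm_num

theorem no_extension :
    ¬ HasLocalExtension (toReal.comp (Gamma2 (m + 3)).subtype) (incl (m + 3)) := by
  rintro ⟨U, W, θ, hU, hSU, hW, hWU, hSp, hθ, h1, hmul, hext'⟩
  have hext : ∀ (γ : Gamma2 (m + 3)) (x : Pu (m + 3)), (toReal (γ : SL(m + 3, ℤ)), x) ∈ W →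
      θ (toReal (γ : SL(m + 3, ℤ)), x) = γ • x := hext'
  -- the orbit map along the sphere
  let f : SL(m + 3, ℝ) → S (m + 3) → Pu (m + 3) := fun g x => θ (g, incl _ x)
  have hf : Continuous (fun p : SL(m + 3, ℝ) × S (m + 3) => f p.1 p.2) := by
    apply hθ.comp_continuous
    · exact continuous_fst.prodMk (isEmbedding_incl.continuous.comp continuous_snd)
    · exact fun p => hSp _ _
  -- points of norm one are on the sphere
  have hlift : ∀ z : Pu (m + 3), ‖(z : E (m + 3))‖ = 1 → ∃ y : S (m + 3), incl _ y = z := by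
    intro z hz
    exact ⟨⟨z, mem_sphere_zero_iff_norm.2 hz⟩, rfl⟩
  have hnorm1 : ∀ x : S (m + 3), ‖(f 1 x : E (m + 3))‖ = 1 := by
    intro x
    change ‖(θ (1, incl _ x) : E (m + 3))‖ = 1
    rw [h1 _ (hSp _ _)]
    exact mem_sphere_zero_iff_norm.1 x.2
  have hnorm_smul : ∀ (A : Gamma2 (m + 3)) (z : Pu (m + 3)), ‖((A • z : Pu (m + 3)) : E (m + 3))‖ =
      ‖(z : E (m + 3))‖ ^ (sgn A.1) := fun A z => norm_tw A.1 (Pu_ne z)
  -- the action on the sphere
  let su : S (m + 3) → S (m + 3) := fun x => sphereAct (toReal (uu : Gamma2 (m + 3)).1) x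
  have hsu_surj : Function.Surjective su := by
    intro y
    have hy : ‖(((uu : Gamma2 (m + 3))⁻¹ • incl _ y : Pu (m + 3)) : E (m + 3))‖ = 1 := by
      rw [hnorm_smul]
      have : ‖((incl _ y : Pu (m + 3)) : E (m + 3))‖ = 1 := mem_sphere_zero_iff_norm.1 y.2
      rw [this, one_zpow]
    obtain ⟨x, hx⟩ := hlift _ hy
    refine ⟨x, ?_⟩
    have h2 : incl _ (su x) = incl _ y := by
      change incl _ (sphereAct (toReal (uu : Gamma2 (m + 3)).1) x) = incl _ y
      rw [incl_equivariant, hx, smul_inv_smul]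
    exact isEmbedding_incl.injective h2
  -- the key relation
  have hrel : ∀ (ε δ : ℝ) (x : S (m + 3)),
      (toReal (uu : Gamma2 (m + 3)).1, f (K ε δ) x) ∈ W →
      ‖(f (K ε (δ + 2 * ε)) (su x) : E (m + 3))‖ = ‖(f (K ε δ) x : E (m + 3))‖ := by
    intro ε δ x hx
    have hu : toReal (uu : Gamma2 (m + 3)).1 = (Tr 0 2 h02 2 : SL(m + 3, ℝ)) := by
      change toReal (Tz 0 2 h02 2) = _
      rw [toReal_Tz]
      norm_num
    have e1 : θ (toReal (uu : Gamma2 (m + 3)).1, f (K ε δ) x) =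
        θ (toReal (uu : Gamma2 (m + 3)).1 * K ε δ, incl _ x) :=
      hmul _ _ _ (hSp _ _) hx (hSp _ _)
    have e2 : θ (K ε (δ + 2 * ε), θ (toReal (uu : Gamma2 (m + 3)).1, incl _ x)) =
        θ (K ε (δ + 2 * ε) * toReal (uu : Gamma2 (m + 3)).1, incl _ x) := by
      apply hmul _ _ _ (hSp _ _) _ (hSp _ _)
      rw [hext _ _ (hSp _ _), ← incl_equivariant]
      exact hSp _ _
    rw [hext _ _ (hSp _ _), ← incl_equivariant] at e2
    rw [hext _ _ hx] at e1
    have e3 : toReal (uu : Gamma2 (m + 3)).1 * K ε δ =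
        K ε (δ + 2 * ε) * toReal (uu : Gamma2 (m + 3)).1 := by
      rw [hu]
      exact K_conj ε δ
    rw [e3, ← e2] at e1
    change ‖(θ (K ε (δ + 2 * ε), incl _ (su x)) : E (m + 3))‖ = _
    have e4 : ((uu : Gamma2 (m + 3)) • f (K ε δ) x) = θ (K ε (δ + 2 * ε), incl _ (su x)) := e1
    rw [← e4, hnorm_smul, sgn_uu, zpow_one]
  -- uniformity near the identity
  have hcompact : IsCompact (Set.univ : Set (S (m + 3))) := isCompact_univ
  have hnear : ∀ᶠ p : ℝ × ℝ in 𝓝 (0, 0), ∀ x : S (m + 3),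
      (toReal (uu : Gamma2 (m + 3)).1, f (K p.1 p.2) x) ∈ W := by
    have := hcompact.eventually_forall_of_forall_eventually (x₀ := ((0 : ℝ), (0 : ℝ)))
      (P := fun p x => (toReal (uu : Gamma2 (m + 3)).1, f (K p.1 p.2) x) ∈ W) (by
        intro y _
        have hc : Continuous (fun z : (ℝ × ℝ) × S (m + 3) =>
            ((toReal (uu : Gamma2 (m + 3)).1, f (K z.1.1 z.1.2) z.2) : SL(m + 3, ℝ) × Pu (m + 3))) :=
          continuous_const.prodMk (hf.comp ((continuous_K.comp continuous_fst).prodMk continuous_snd))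
        apply hc.continuousAt.eventually_mem
        apply hW.mem_nhds
        change (toReal (uu : Gamma2 (m + 3)).1, f (K 0 0) y) ∈ W
        have : f (K 0 0) y = incl _ y := by
          change θ (K 0 0, incl _ y) = incl _ y
          rw [K_zero, Tr_zero, h1 _ (hSp _ _)]
        rw [this]
        exact hSp _ _)
    simpa using this
  have hnear2 : ∀ η : ℝ, 0 < η → ∀ᶠ ε : ℝ in 𝓝 0, ∀ x : S (m + 3),
      |‖(f (K ε 0) x : E (m + 3))‖ - 1| < η := by
    intro η hη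
    have := hcompact.eventually_forall_of_forall_eventually (x₀ := (0 : ℝ))
      (P := fun ε x => |‖(f (K ε 0) x : E (m + 3))‖ - 1| < η) (by
        intro y _
        have hc : Continuous (fun z : ℝ × S (m + 3) => |‖(f (K z.1 0) z.2 : E (m + 3))‖ - 1|) := by
          have hc1 : Continuous (fun z : ℝ × S (m + 3) => f (K z.1 0) z.2) :=
            hf.comp ((continuous_K.comp (continuous_fst.prodMk continuous_const)).prodMk continuous_snd)
          have hc2 : Continuous (fun z : ℝ × S (m + 3) => (f (K z.1 0) z.2 : E (m + 3))) :=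
            continuous_subtype_val.comp hc1
          exact (hc2.norm.sub continuous_const).abs
        apply hc.continuousAt.eventually_lt continuousAt_const
        change |‖(f (K 0 0) y : E (m + 3))‖ - 1| < η
        rw [K_zero, Tr_zero, hnorm1, sub_self, abs_zero]
        exact hη)
    simpa using this
  obtain ⟨r, hr, hr'⟩ := Metric.eventually_nhds_iff.1 hnear
  have hW' : ∀ ε δ : ℝ, |ε| < r → |δ| < r → ∀ x : S (m + 3),
      (toReal (uu : Gamma2 (m + 3)).1, f (K ε δ) x) ∈ W := by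
    intro ε δ hε hδ x
    have h2 : dist ((ε, δ) : ℝ × ℝ) (0, 0) < r := by
      rw [Prod.dist_eq, Real.dist_eq, Real.dist_eq, sub_zero, sub_zero]
      exact max_lt hε hδ
    exact hr' h2 x
  -- small elements of the root group preserve the sphere
  have hsmall : ∀ δ : ℝ, |δ| < r → ∀ y : S (m + 3), ‖(f (K 0 δ) y : E (m + 3))‖ = 1 := by
    intro δ hδ y
    -- the chain
    have hchain : ∀ (N : ℕ), 0 < N → ∀ (j : ℕ), j ≤ N → ∀ x : S (m + 3),
        ‖(f (K (δ / (2 * N)) (δ * (j / N))) (su^[j] x) : E (m + 3))‖ =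
          ‖(f (K (δ / (2 * N)) 0) x : E (m + 3))‖ := by
      intro N hN j
      have hN' : (0 : ℝ) < N := by exact_mod_cast hN
      induction j with
      | zero =>
        intro _ x
        simp
      | succ j ih =>
        intro hj x
        have hjN : (j : ℝ) / N ≤ 1 := by
          rw [div_le_one hN']
          exact_mod_cast (by omega : j ≤ N)
        have hjN0 : 0 ≤ (j : ℝ) / N := by positivity
        have e1 : |δ / (2 * N)| < r := by
          rw [abs_div, abs_of_pos (by positivity : (0 : ℝ) < 2 * N)]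
          refine lt_of_le_of_lt (div_le_self (abs_nonneg _) ?_) hδ
          have : (1 : ℝ) ≤ N := by exact_mod_cast hN
          linarith
        have e2 : |δ * (j / N)| < r := by
          rw [abs_mul, abs_of_nonneg hjN0]
          refine lt_of_le_of_lt (mul_le_of_le_one_right (abs_nonneg _) hjN) hδ
        have e3 := hrel (δ / (2 * N)) (δ * (j / N)) (su^[j] x) (hW' _ _ e1 e2 _)
        have e4 : δ * (j / N) + 2 * (δ / (2 * N)) = δ * ((j + 1 : ℕ) / N) := by
          push_cast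
          field_simp
        rw [e4] at e3
        rw [Function.iterate_succ_apply', e3]
        exact ih (by omega) x
    have hlim : Filter.Tendsto (fun N : ℕ => δ / (2 * ((N : ℝ) + 1))) Filter.atTop (𝓝 0) := by
      have h2 : Filter.Tendsto (fun N : ℕ => (δ / 2) * (1 / ((N : ℝ) + 1))) Filter.atTop
          (𝓝 ((δ / 2) * 0)) :=
        Filter.Tendsto.mul tendsto_const_nhds tendsto_one_div_add_atTop_nhds_zero_nat
      rw [mul_zero] at h2
      refine h2.congr fun N => ?_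
      field_simp
    have hlim2 : Filter.Tendsto (fun N : ℕ => ‖(f (K (δ / (2 * ((N : ℝ) + 1))) δ) y : E (m + 3))‖)
        Filter.atTop (𝓝 ‖(f (K 0 δ) y : E (m + 3))‖) := by
      have hc : Continuous (fun ε : ℝ => ‖(f (K ε δ) y : E (m + 3))‖) := by
        have hc1 : Continuous (fun ε : ℝ => f (K ε δ) y) :=
          hf.comp ((continuous_K.comp (continuous_id.prodMk continuous_const)).prodMk continuous_const)
        exact (continuous_subtype_val.comp hc1).norm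
      exact (hc.tendsto 0).comp hlim
    by_contra hne
    have hη : 0 < |‖(f (K 0 δ) y : E (m + 3))‖ - 1| := abs_pos.2 (sub_ne_zero.2 hne)
    set η := |‖(f (K 0 δ) y : E (m + 3))‖ - 1| with hηdef
    have h2 : ∀ᶠ N : ℕ in Filter.atTop,
        |‖(f (K (δ / (2 * ((N : ℝ) + 1))) δ) y : E (m + 3))‖ - 1| < η / 2 := by
      filter_upwards [hlim.eventually (hnear2 (η / 2) (by linarith))] with N hN
      obtain ⟨x, hx⟩ := (hsu_surj.iterate (N + 1)) y
      have h3 := hchain (N + 1) (by omega) (N + 1) le_rfl x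
      have h4 : (((N + 1 : ℕ) : ℝ)) / ((N + 1 : ℕ) : ℝ) = 1 := by
        apply div_self
        positivity
      rw [h4, mul_one, hx] at h3
      push_cast at h3
      rw [h3]
      exact hN x
    have h3 : Filter.Tendsto (fun N : ℕ => |‖(f (K (δ / (2 * ((N : ℝ) + 1))) δ) y : E (m + 3))‖ - 1|)
        Filter.atTop (𝓝 η) := (hlim2.sub_const 1).abs
    have h4 : η ≤ η / 2 := le_of_tendsto h3 (h2.mono fun N hN => hN.le)
    linarith
  -- hence the whole root group preserves the sphere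
  have hroot : ∀ δ : ℝ, ∀ y : S (m + 3), ‖(f (Tr 0 1 h01 δ) y : E (m + 3))‖ = 1 := by
    have hstep : ∀ c : ℝ, |c| < r → ∀ N : ℕ, ∀ y : S (m + 3),
        ‖(f (Tr 0 1 h01 (N * c)) y : E (m + 3))‖ = 1 := by
      intro c hc N
      induction N with
      | zero =>
        intro y
        rw [Nat.cast_zero, zero_mul, Tr_zero]
        exact hnorm1 y
      | succ N ih =>
        intro y
        obtain ⟨y', hy'⟩ := hlift _ (ih y)
        have e1 : θ (Tr 0 1 h01 c, θ (Tr 0 1 h01 (N * c), incl _ y)) =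
            θ (Tr 0 1 h01 c * Tr 0 1 h01 (N * c), incl _ y) := by
          apply hmul _ _ _ (hSp _ _) _ (hSp _ _)
          change (_, f (Tr 0 1 h01 (N * c)) y) ∈ W
          rw [← hy']
          exact hSp _ _
        rw [Tr_mul] at e1
        have e2 : c + N * c = ((N + 1 : ℕ) : ℝ) * c := by
          push_cast
          ring
        rw [e2] at e1
        change ‖(θ (Tr 0 1 h01 (((N + 1 : ℕ) : ℝ) * c), incl _ y) : E (m + 3))‖ = 1
        rw [← e1]
        change ‖(θ (Tr 0 1 h01 c, f (Tr 0 1 h01 (N * c)) y) : E (m + 3))‖ = 1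
        rw [← hy']
        have := hsmall c hc y'
        rw [K_zero] at this
        exact this
    intro δ y
    obtain ⟨N, hN⟩ := exists_nat_gt (|δ| / r)
    have hN0 : (0 : ℝ) < N := lt_of_le_of_lt (by positivity) hN
    have h2 : |δ / N| < r := by
      rw [abs_div, abs_of_pos hN0, div_lt_iff₀ hN0]
      rw [div_lt_iff₀ hr] at hN
      linarith
    have h3 := hstep (δ / N) h2 N y
    rwa [mul_div_cancel₀ _ hN0.ne'] at h3
  -- two sides of the sphere
  let y0 : S (m + 3) := ⟨EuclideanSpace.single 0 1, by simp⟩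
  have hy0 : ‖(y0 : E (m + 3))‖ = 1 := mem_sphere_zero_iff_norm.1 y0.2
  let z : ℝ → Pu (m + 3) := fun s => ⟨(1 + |s|) • (y0 : E (m + 3)), by
    apply smul_ne_zero _ (sphere_ne_zero y0)
    positivity⟩
  have hz : Continuous z := by
    apply Continuous.subtype_mk
    fun_prop
  have hz0 : z 0 = incl _ y0 := by
    apply Subtype.ext
    change (1 + |(0 : ℝ)|) • (y0 : E (m + 3)) = y0
    simp
  have hnormz : ∀ s, ‖(z s : E (m + 3))‖ = 1 + |s| := by
    intro s
    change ‖(1 + |s|) • (y0 : E (m + 3))‖ = 1 + |s|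
    rw [norm_smul, hy0, mul_one, Real.norm_of_nonneg (by positivity)]
  have hnear3 : ∀ᶠ s : ℝ in 𝓝 0, ∀ t ∈ Set.Icc (0 : ℝ) 2, (Tr 0 1 h01 t, z s) ∈ W := by
    apply isCompact_Icc.eventually_forall_of_forall_eventually (x₀ := (0 : ℝ))
      (P := fun s t => (Tr 0 1 h01 t, z s) ∈ W)
    intro t _
    have hc : Continuous (fun p : ℝ × ℝ => ((Tr 0 1 h01 p.2, z p.1) : SL(m + 3, ℝ) × Pu (m + 3))) :=
      ((Tr_continuous _ _ _).comp continuous_snd).prodMk (hz.comp continuous_fst)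
    apply hc.continuousAt.eventually_mem
    apply hW.mem_nhds
    change (Tr 0 1 h01 t, z 0) ∈ W
    rw [hz0]
    exact hSp _ _
  obtain ⟨r2, hr2, hr2'⟩ := Metric.eventually_nhds_iff.1 hnear3
  have hs : ∀ t ∈ Set.Icc (0 : ℝ) 2, (Tr 0 1 h01 t, z (r2 / 2)) ∈ W := by
    apply hr2'
    rw [Real.dist_eq, sub_zero, abs_of_pos (by linarith)]
    linarith
  set x := z (r2 / 2) with hx
  have hxn : 1 < ‖(x : E (m + 3))‖ := by
    rw [hx, hnormz, abs_of_pos (by linarith)]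
    linarith
  have hx1 : (1, x) ∈ W := by
    have := hs 0 (by simp)
    rwa [Tr_zero] at this
  have hgc : ContinuousOn (fun t : ℝ => ‖(θ (Tr 0 1 h01 t, x) : E (m + 3))‖) (Set.Icc 0 2) := by
    have hc1 : ContinuousOn (fun t : ℝ => θ (Tr 0 1 h01 t, x)) (Set.Icc 0 2) := by
      apply hθ.comp
      · exact ((Tr_continuous _ _ _).prodMk continuous_const).continuousOn
      · intro t ht
        exact hs t ht
    exact (continuous_subtype_val.comp_continuousOn hc1).norm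
  have hg0 : ‖(θ (Tr 0 1 h01 0, x) : E (m + 3))‖ = ‖(x : E (m + 3))‖ := by
    rw [Tr_zero, h1 _ hx1]
  have hv : toReal (vv : Gamma2 (m + 3)).1 = (Tr 0 1 h01 2 : SL(m + 3, ℝ)) := by
    change toReal (Tz 0 1 h01 2) = _
    rw [toReal_Tz]
    norm_num
  have hg2 : ‖(θ (Tr 0 1 h01 2, x) : E (m + 3))‖ = ‖(x : E (m + 3))‖⁻¹ := by
    have hm := hs 2 (by simp)
    rw [← hv] at hm ⊢
    rw [hext _ _ hm, hnorm_smul, sgn_vv, zpow_neg, zpow_one]
  have hivt := intermediate_value_Icc' (by norm_num : (0 : ℝ) ≤ 2) hgc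
  have h1mem : (1 : ℝ) ∈ Set.Icc ‖(θ (Tr 0 1 h01 2, x) : E (m + 3))‖
      ‖(θ (Tr 0 1 h01 0, x) : E (m + 3))‖ := by
    rw [hg0, hg2]
    exact ⟨inv_le_one_of_one_le₀ hxn.le, hxn.le⟩
  obtain ⟨t, ht, hgt⟩ := hivt h1mem
  obtain ⟨y, hy⟩ := hlift _ hgt
  have e1 : θ (Tr 0 1 h01 (-t), θ (Tr 0 1 h01 t, x)) = θ (Tr 0 1 h01 (-t) * Tr 0 1 h01 t, x) := by
    apply hmul _ _ _ (hs t ht)
    · rw [← hy]
      exact hSp _ _
    · rw [Tr_mul, neg_add_cancel, Tr_zero]
      exact hx1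
  rw [Tr_mul, neg_add_cancel, Tr_zero, h1 _ hx1, ← hy] at e1
  have e2 := hroot (-t) y
  change ‖(θ (Tr 0 1 h01 (-t), incl _ y) : E (m + 3))‖ = 1 at e2
  rw [e1] at e2
  linarith

end

/-- `M` is a smooth manifold modelled on `F` (Hausdorff, second countable), on which `Γ` acts by
smooth maps. -/
def SmoothAction (Γ F M : Type) [Group Γ] [NormedAddCommGroup F] [NormedSpace ℝ F]
    [TopologicalSpace M] [ChartedSpace F M] [MulAction Γ M] : Prop :=
  IsManifold 𝓘(ℝ, F) ∞ M ∧ T2Space M ∧ SecondCountableTopology M ∧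
    ∀ γ : Γ, ContMDiff 𝓘(ℝ, F) 𝓘(ℝ, F) ∞ (fun x : M => γ • x)

/-- `φ` is a smooth embedding of the manifold `N` into the manifold `M`. -/
def SmoothEmb (E F : Type) [NormedAddCommGroup E] [NormedSpace ℝ E] [NormedAddCommGroup F]
    [NormedSpace ℝ F] {N M : Type} [TopologicalSpace N] [ChartedSpace E N] [TopologicalSpace M]
    [ChartedSpace F M] (φ : N → M) : Prop :=
  Topology.IsEmbedding φ ∧ ContMDiff 𝓘(ℝ, E) 𝓘(ℝ, F) ∞ φ ∧
    ∀ x, Function.Injective (mfderiv 𝓘(ℝ, E) 𝓘(ℝ, F) φ x)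

/-- `φ (ι γ · x) = γ • φ x` for all `γ` and `x`. -/
def Equivariant {Γ G N M : Type} [Group Γ] [Group G] [MulAction Γ M] (ι : Γ →* G)
    (act : G → N → N) (φ : N → M) : Prop :=
  ∀ γ x, φ (act (ι γ) x) = γ • φ x

/-- The subgroup `Γ` of `SL(n,ℤ)` acts smoothly on the smooth `n`-manifold `M`. -/
def SmoothAct {n : ℕ} (Γ : Subgroup (SLZ n)) (M : Type) [TopologicalSpace M]
    [ChartedSpace (E n) M] [MulAction Γ M] : Prop :=
  SmoothAction Γ (E n) M

/-- `φ` is a smooth embedding of the sphere `S^k` into the `(k+1)`-manifold `M`. -/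
def SphereEmb {k : ℕ} {M : Type} [TopologicalSpace M] [ChartedSpace (E (k + 1)) M]
    (φ : S (k + 1) → M) : Prop :=
  SmoothEmb (E k) (E (k + 1)) φ

/-- `φ` is equivariant, for the standard action of `Γ` on the sphere. -/
def StdEquivariant {n : ℕ} (Γ : Subgroup (SLZ n)) {M : Type} [MulAction Γ M]
    (φ : S n → M) : Prop :=
  Equivariant (inc Γ) sphereAct φ

/-- The action of `Γ` extends to a local (continuous) action of `SL(n,ℝ)` near the image of `φ`. -/
def ExtendsNear {n : ℕ} (Γ : Subgroup (SLZ n)) {M : Type} [TopologicalSpace M] [MulAction Γ M]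
    (φ : S n → M) : Prop :=
  HasLocalExtension (inc Γ) φ

/-- **Main result.** -/
theorem result (k : ℕ) (hk : 2 ≤ k) :
    ∃ (Γ : Subgroup (SLZ (k + 1))) (M : Type) (_ : TopologicalSpace M)
      (_ : ChartedSpace (E (k + 1)) M) (_ : MulAction Γ M) (φ : S (k + 1) → M),
      Γ.FiniteIndex ∧ SmoothAct Γ M ∧ SphereEmb φ ∧ StdEquivariant Γ φ ∧ ¬ ExtendsNear Γ φ := by
  obtain ⟨m, rfl⟩ := Nat.exists_eq_add_of_le' hk
  exact ⟨Gamma2 (m + 3), Pu (m + 3), inferInstance, inferInstance, twAct (m + 1), incl (m + 3),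
    (inferInstance : (Gamma2 (m + 3)).FiniteIndex),
    ⟨inferInstance, inferInstance, inferInstance, contMDiff_smul⟩,
    ⟨isEmbedding_incl, contMDiff_incl, injective_mfderiv_incl⟩, incl_equivariant, no_extension⟩

end Pool.Agent.Results.MP_20070e_gt.NoLocalExtension
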